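import Pool.Agent.J4H43.SW.Stm

/-!
Project SW of helper43 (MP_446dfa_ag): (SW4).
-/

set_option autoImplicit false

namespace Pool.Agent.J4H57.SW

open Pool.Agent.J4H43.SW Pool.Agent.J4H43.FR

universe u

theorem t_SW4 : S_SW4.{u} := by
  intro k _ r f hf g
  refine left_ind (fun g => ∀ n, hc n (FreeAlgebra.lift k f g) = FreeAlgebra.lift k f (hc n g)) ?_ ?_ ?_ ?_ g
  · intro n
    rw [map_one, hc_one]
    split_ifs
    · rw [map_one]
    · rw [map_zero]
  · intro a b ha hb n
    simp only [map_add, ha, hb]
  · intro c a ha n
    simp only [map_smul, ha]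
  · intro y a ha n
    rw [map_mul, FreeAlgebra.lift_ι_apply]
    cases n with
    | zero =>
      rw [hc_zero_ι_mul, map_zero, hc_mul]
      apply Finset.sum_eq_zero
      rintro ⟨i, j⟩ hij
      rw [Finset.HasAntidiagonal.mem_antidiagonal] at hij
      have : i ≠ 1 := by
        simp at hij
        omega
      change hc i (f y) * _ = 0
      rw [(hf y).ne this, zero_mul]
    | succ n =>
      rw [hc_ι_mul, map_mul (FreeAlgebra.lift k f), FreeAlgebra.lift_ι_apply, ← ha n, hc_mul,
        Finset.sum_eq_single (1, n)]
      · rw [(hf y).self]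
      · rintro ⟨i, j⟩ hij hne
        rw [Finset.HasAntidiagonal.mem_antidiagonal] at hij
        have : i ≠ 1 := by
          rintro rfl
          apply hne
          have : j = n := by simp at hij; omega
          rw [this]
        change hc i (f y) * _ = 0
        rw [(hf y).ne this, zero_mul]
      · intro h
        exact absurd (Finset.HasAntidiagonal.mem_antidiagonal.mpr
          (show (1, n).1 + (1, n).2 = n + 1 by simp; omega)) h

end Pool.Agent.J4H57.SW
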